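import Mathlib
import Pool.Agent.X137.EssDefs
import Pool.Agent.X137.Ess

/-! The three comparison inequalities between essential and influential edges fail for `v = ± e_i`:
some edge of positive probability of being semi-essential is never very influential. -/

namespace Pool.Agent.Results.MP_b09029_pr.NotComparable

open MeasureTheory
open scoped ENNReal
open Pool.Agent.X137.Ess

lemma exists_bad {d : ℕ} {a b p : ℝ} (ha : 0 < a) (hab : a < b) (hp0 : 0 < p) (hp1 : p < 1)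
    (i k : Fin d) (hki : k ≠ i) (s : ℤ) (hs : |s| = 1) (h n : ℕ) (hn : h + 1 ≤ 2 * n)
    (hnc : n = ⌈2 * a * ((h + 1 : ℕ) : ℝ) / (b - a)⌉₊) (j : W d n)
    (hj : j.1 = s((h : ℤ) • (Pi.single k 1 : Vtx d), ((h + 1 : ℕ) : ℤ) • (Pi.single k 1 : Vtx d))) :
    0 < PP d n p (semiEssential a b (Pi.single i s) j) ∧
    PP d n p (veryInfluential a b (Pi.single i s) j) = 0 := by
  have hba : 0 < b - a := by linarith
  have hx : 0 ≤ 2 * a * ((h + 1 : ℕ) : ℝ) / (b - a) := by positivity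
  have h1 : 2 * a * ((h + 1 : ℕ) : ℝ) / (b - a) ≤ n := by rw [hnc]; exact Nat.le_ceil _
  have h2 : (n : ℝ) < 2 * a * ((h + 1 : ℕ) : ℝ) / (b - a) + 1 := by
    rw [hnc]; exact Nat.ceil_lt_add_one hx
  rw [div_le_iff₀ hba] at h1
  have h3 : (n : ℝ) * (b - a) < 2 * a * ((h + 1 : ℕ) : ℝ) + (b - a) := by
    have := mul_lt_mul_of_pos_right h2 hba
    rwa [add_mul, one_mul, div_mul_cancel₀ _ hba.ne'] at this
  exact bad_edge ha hab hp0 hp1 i k hki s hs h hn (by nlinarith) (by nlinarith) j hj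

lemma not_comparable {d n : ℕ} {a b p : ℝ} {v : Vtx d} {j : W d n}
    (h1 : 0 < PP d n p (semiEssential a b v j)) (h2 : PP d n p (veryInfluential a b v j) = 0)
    (C : ℝ≥0∞) : ¬ Comparable a b p v C j := by
  intro h
  have h3 := h.2.2
  rw [h2, mul_zero] at h3
  exact absurd h3 (not_le.mpr h1)

/-- Let `d ≥ 2`, `0 < a < b`, `0 < p < 1` and `v = ± e_i`. (1) There are an edge `e` of `ℤ ^ d`,
contained in `W_n` for all `n ≥ 1`, and an `n ≥ 1` such that `P(Ê_e) > 0` and `P(Â_e) = 0` in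
`G_n`; so for this edge the three inequalities fail for every constant `C`.
(2) If moreover `b ≤ 5 a`, then for arbitrarily large `n` some edge of `W_n` has the same
property. -/
theorem result (d : ℕ) (hd : 2 ≤ d) (a b p : ℝ) (ha : 0 < a) (hab : a < b) (hp0 : 0 < p)
    (hp1 : p < 1) (i : Fin d) (s : ℤ) (hs : s = 1 ∨ s = -1) :
    (∃ e : Sym2 (Vtx d), (∀ n : ℕ, 1 ≤ n → e ∈ (boxGraph d n).edgeSet) ∧
      ∃ n : ℕ, 1 ≤ n ∧ ∃ he : e ∈ (boxGraph d n).edgeSet,
        0 < PP d n p (semiEssential a b (Pi.single i s) ⟨e, he⟩) ∧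
        PP d n p (veryInfluential a b (Pi.single i s) ⟨e, he⟩) = 0 ∧
        ∀ C : ℝ≥0∞, ¬ Comparable a b p (Pi.single i s) C ⟨e, he⟩) ∧
    (b ≤ 5 * a → ∀ M : ℕ, ∃ n : ℕ, M ≤ n ∧ ∃ j : W d n,
        0 < PP d n p (semiEssential a b (Pi.single i s) j) ∧
        PP d n p (veryInfluential a b (Pi.single i s) j) = 0 ∧
        ∀ C : ℝ≥0∞, ¬ Comparable a b p (Pi.single i s) C j) := by
  have hs' : |s| = 1 := by rcases hs with rfl | rfl <;> simp
  have hba : 0 < b - a := by linarith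
  have hnt : Nontrivial (Fin d) := Fin.nontrivial_iff_two_le.mpr hd
  obtain ⟨k, hki⟩ := exists_ne i
  constructor
  · refine ⟨s(((0 : ℕ) : ℤ) • (Pi.single k 1 : Vtx d), ((0 + 1 : ℕ) : ℤ) • (Pi.single k 1 : Vtx d)),
      fun n hn => adj_axis k 0 (by omega), ?_⟩
    set n : ℕ := ⌈2 * a * ((0 + 1 : ℕ) : ℝ) / (b - a)⌉₊ with hn
    have hn1 : 1 ≤ n := by
      rw [hn]
      exact Nat.one_le_iff_ne_zero.mpr (Nat.pos_iff_ne_zero.mp (Nat.ceil_pos.mpr (by
        push_cast; positivity)))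
    have he : s(((0 : ℕ) : ℤ) • (Pi.single k 1 : Vtx d), ((0 + 1 : ℕ) : ℤ) •
        (Pi.single k 1 : Vtx d)) ∈ (boxGraph d n).edgeSet := adj_axis k 0 (by omega)
    have h := exists_bad (p := p) ha hab hp0 hp1 i k hki s hs' 0 n (by omega) hn ⟨_, he⟩ rfl
    exact ⟨n, hn1, he, h.1, h.2, fun C => not_comparable h.1 h.2 C⟩
  · intro hb5 M
    set h : ℕ := 2 * M with hh
    set n : ℕ := ⌈2 * a * ((h + 1 : ℕ) : ℝ) / (b - a)⌉₊ with hn
    have h1 : 2 * a * ((h + 1 : ℕ) : ℝ) / (b - a) ≤ n := Nat.le_ceil _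
    rw [div_le_iff₀ hba] at h1
    have h2 : ((h + 1 : ℕ) : ℝ) ≤ 2 * n := by
      have h3 : (n : ℝ) * (b - a) ≤ n * (4 * a) :=
        mul_le_mul_of_nonneg_left (by linarith) (Nat.cast_nonneg n)
      have h4 : 2 * a * ((h + 1 : ℕ) : ℝ) ≤ 2 * a * (2 * n) := by nlinarith
      exact le_of_mul_le_mul_left h4 (by positivity)
    have h2' : h + 1 ≤ 2 * n := by exact_mod_cast h2
    have hMn : M ≤ n := by omega
    have h' := exists_bad (p := p) ha hab hp0 hp1 i k hki s hs' h n h2' hn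
      ⟨_, adj_axis k h h2'⟩ rfl
    exact ⟨n, hMn, _, h'.1, h'.2, fun C => not_comparable h'.1 h'.2 C⟩

end Pool.Agent.Results.MP_b09029_pr.NotComparable
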